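import Mathlib

/-!
# MP_f5b231_co: `e(G) ≥ n² / (n - F(G))` for every graph `G` on `2n` vertices with a perfect matching

Idea of the proof.  Let `M` be a perfect matching of `G`.  In every edge `e` of `M` choose the
endpoint `w e` of smaller degree, and let `N e` be the set of the other edges of `M` that contain a
neighbour of `w e`, so that `1 + |N e| ≤ deg (w e)`.  Choosing greedily an edge `e` with `|N e|`
minimal among the remaining edges, and then deleting `e` and `N e`, one finds a set `S ⊆ M` with
`|S| ≥ ∑ 1 / deg (w e) ≥ n² / ∑ deg (w e) ≥ n² / e(G)`.  The endpoint `w e` of the edge `e ∈ S`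
chosen first has no neighbour on the other edges of `S`; hence a perfect matching that contains
`M \ S` contains `e`, and by induction it is `M`.  So `M \ S` is a forcing set of `M`.
-/

set_option autoImplicit false

namespace Pool.Agent.Results.MP_f5b231_co.EdgeBound

/-- `S` is a forcing set of the perfect matching `M` of `G`: `S` is a set of edges of `M`, and `M` is
the only perfect matching of `G` that contains `S`. -/
def IsForcing {V : Type} (G : SimpleGraph V) (M : G.Subgraph) (S : Set (Sym2 V)) : Prop :=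
  S ⊆ M.edgeSet ∧ ∀ M' : G.Subgraph, M'.IsPerfectMatching → S ⊆ M'.edgeSet → M' = M

/-- The forcing number `f(G, M)`: the least size of a forcing set of `M`. -/
noncomputable def forcingNumber {V : Type} (G : SimpleGraph V) (M : G.Subgraph) : ℕ :=
  sInf {k : ℕ | ∃ S : Set (Sym2 V), IsForcing G M S ∧ S.ncard = k}

/-- The maximum forcing number `F(G)`: the maximum of `f(G, M)` over all perfect matchings `M`. -/
noncomputable def maxForcing {V : Type} (G : SimpleGraph V) : ℕ :=
  sSup {k : ℕ | ∃ M : G.Subgraph, M.IsPerfectMatching ∧ forcingNumber G M = k}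

section greedy

variable {ι : Type} [DecidableEq ι]

/-- Sets obtained by adding elements `i` with `N i` disjoint from the set. -/
inductive Elim (N : ι → Finset ι) : Finset ι → Prop
  | empty : Elim N ∅
  | insert (i : ι) (S : Finset ι) (hi : i ∉ S) (h : Disjoint (N i) S) (hS : Elim N S) :
      Elim N (insert i S)

lemma exists_elim (N : ι → Finset ι) (hN : ∀ i, i ∉ N i) (T : Finset ι) :
    ∃ S ⊆ T, Elim N S ∧ ∑ i ∈ T, (1 : ℝ) / (1 + ((N i ∩ T).card : ℝ)) ≤ S.card := by
  induction T using Finset.strongInduction with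
  | H T ih =>
    rcases T.eq_empty_or_nonempty with rfl | hT
    · exact ⟨∅, subset_rfl, Elim.empty, by simp⟩
    · obtain ⟨i, hiT, hmin⟩ := Finset.exists_min_image T (fun i => (N i ∩ T).card) hT
      set D : Finset ι := insert i (N i ∩ T) with hD
      have hDT : D ⊆ T := by
        intro x hx
        rcases Finset.mem_insert.1 hx with rfl | hx
        · exact hiT
        · exact (Finset.mem_inter.1 hx).2
      have hlt : T \ D ⊂ T := by
        refine Finset.sdiff_ssubset hDT ⟨i, Finset.mem_insert_self _ _⟩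
      obtain ⟨S, hS, hE, hsum⟩ := ih (T \ D) hlt
      have hiS : i ∉ S := fun h => by
        have := hS h
        simp [hD] at this
      have hdis : Disjoint (N i) S := by
        rw [Finset.disjoint_left]
        intro x hx hxS
        have h1 := Finset.mem_sdiff.1 (hS hxS)
        exact h1.2 (Finset.mem_insert_of_mem (Finset.mem_inter.2 ⟨hx, h1.1⟩))
      refine ⟨insert i S, ?_, Elim.insert i S hiS hdis hE, ?_⟩
      · exact Finset.insert_subset hiT (hS.trans Finset.sdiff_subset)
      · rw [Finset.card_insert_of_notMem hiS, ← Finset.sum_sdiff hDT]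
        push_cast
        refine add_le_add ?_ ?_
        · refine le_trans (Finset.sum_le_sum fun j _ => ?_) hsum
          have h1 : (N j ∩ (T \ D)).card ≤ (N j ∩ T).card :=
            Finset.card_le_card (Finset.inter_subset_inter_left Finset.sdiff_subset)
          have h2 : ((N j ∩ (T \ D)).card : ℝ) ≤ (N j ∩ T).card := by exact_mod_cast h1
          have h3 : (0 : ℝ) < 1 + ((N j ∩ (T \ D)).card : ℝ) := by positivity
          exact one_div_le_one_div_of_le h3 (by linarith)
        · have hc : D.card = 1 + (N i ∩ T).card := by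
            rw [hD, Finset.card_insert_of_notMem, add_comm]
            intro h
            exact hN i (Finset.mem_inter.1 h).1
          calc ∑ j ∈ D, (1 : ℝ) / (1 + ((N j ∩ T).card : ℝ))
              ≤ ∑ _j ∈ D, (1 : ℝ) / (1 + ((N i ∩ T).card : ℝ)) := by
                refine Finset.sum_le_sum fun j hj => ?_
                have h1 : ((N i ∩ T).card : ℝ) ≤ (N j ∩ T).card := by
                  exact_mod_cast hmin j (hDT hj)
                have h3 : (0 : ℝ) < 1 + ((N i ∩ T).card : ℝ) := by positivity
                exact one_div_le_one_div_of_le h3 (by linarith)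
            _ = 1 := by
                rw [Finset.sum_const, hc, nsmul_eq_mul]
                push_cast
                have h3 : (0 : ℝ) < 1 + ((N i ∩ T).card : ℝ) := by positivity
                field_simp

end greedy

section graph

variable {V : Type} {G : SimpleGraph V}

/-- the partner of `v` in a perfect matching -/
lemma exists_partner {M : G.Subgraph} (hM : M.IsPerfectMatching) :
    ∃ p : V → V, ∀ v w, M.Adj v w ↔ w = p v := by
  choose p hp hu using fun v => hM.1 (hM.2 v)
  exact ⟨p, fun v w => ⟨fun h => hu v w h, fun h => h ▸ hp v⟩⟩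

lemma partner_invol {M : G.Subgraph} {p : V → V} (hp : ∀ v w, M.Adj v w ↔ w = p v) (v : V) :
    p (p v) = v := ((hp (p v) v).1 ((hp v (p v)).2 rfl).symm).symm

lemma partner_adj {M : G.Subgraph} {p : V → V} (hp : ∀ v w, M.Adj v w ↔ w = p v) (v : V) :
    G.Adj v (p v) := M.adj_sub ((hp v (p v)).2 rfl)

lemma mem_edgeSet_iff {M : G.Subgraph} {p : V → V} (hp : ∀ v w, M.Adj v w ↔ w = p v)
    (e : Sym2 V) : e ∈ M.edgeSet ↔ ∃ v, e = s(v, p v) := by
  constructor
  · intro h
    induction e using Sym2.ind with
    | _ a b =>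
      rw [SimpleGraph.Subgraph.mem_edgeSet] at h
      exact ⟨a, by rw [(hp a b).1 h]⟩
  · rintro ⟨v, rfl⟩
    rw [SimpleGraph.Subgraph.mem_edgeSet]
    exact (hp v _).2 rfl

lemma eq_of_sub {M M' : G.Subgraph} (hM : M.IsPerfectMatching) (hM' : M'.IsPerfectMatching)
    (h : M.edgeSet ⊆ M'.edgeSet) : M' = M := by
  obtain ⟨p, hp⟩ := exists_partner hM
  obtain ⟨p', hp'⟩ := exists_partner hM'
  have hpp : ∀ v, p' v = p v := by
    intro v
    have h1 : s(v, p v) ∈ M.edgeSet := (mem_edgeSet_iff hp _).2 ⟨v, rfl⟩
    have h2 := h h1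
    rw [SimpleGraph.Subgraph.mem_edgeSet] at h2
    exact ((hp' v _).1 h2).symm
  refine SimpleGraph.Subgraph.ext ?_ ?_
  · ext v
    exact ⟨fun _ => hM.2 v, fun _ => hM'.2 v⟩
  · ext v w
    rw [hp, hp', hpp]

/-- an elimination set yields a forcing set -/
lemma forcing_of_elim [DecidableEq V] {M : G.Subgraph} (hM : M.IsPerfectMatching) {p : V → V}
    (hp : ∀ v w, M.Adj v w ↔ w = p v) (w : Sym2 V → V)
    (hw : ∀ e ∈ M.edgeSet, w e ∈ e) (N : Sym2 V → Finset (Sym2 V))
    (hN : ∀ e ∈ M.edgeSet, ∀ y, G.Adj (w e) y → s(y, p y) ≠ e → s(y, p y) ∈ N e)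
    (S : Finset (Sym2 V)) (hS : Elim N S) (hSM : ∀ e ∈ S, e ∈ M.edgeSet) :
    ∀ M' : G.Subgraph, M'.IsPerfectMatching → M.edgeSet \ (S : Set (Sym2 V)) ⊆ M'.edgeSet →
      M' = M := by
  induction hS with
  | empty =>
    intro M' hM' h
    refine eq_of_sub hM hM' ?_
    simpa using h
  | insert i S hi hdis hE ih =>
    intro M' hM' h
    refine ih (fun e he => hSM e (Finset.mem_insert_of_mem he)) M' hM' ?_
    have hiM : i ∈ M.edgeSet := hSM i (Finset.mem_insert_self _ _)
    obtain ⟨p', hp'⟩ := exists_partner hM'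
    have hkey : i ∈ M'.edgeSet := by
      set x := w i with hx
      have hxi : x ∈ i := hw i hiM
      obtain ⟨a, ha⟩ := (mem_edgeSet_iff hp i).1 hiM
      have hix : i = s(x, p x) := by
        rw [ha, Sym2.mem_iff] at hxi
        rcases hxi with h1 | h1
        · rw [ha, h1]
        · rw [ha, h1, partner_invol hp, Sym2.eq_swap]
      by_cases hy : p' x = p x
      · rw [hix, SimpleGraph.Subgraph.mem_edgeSet, hp', hy]
      · exfalso
        set y := p' x with hyd
        have hadj : G.Adj x y := partner_adj hp' x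
        have hne : s(y, p y) ≠ i := by
          intro h1
          rw [hix, Sym2.eq_iff] at h1
          rcases h1 with h1 | h1
          · exact hadj.ne h1.1.symm
          · exact hy h1.1
        have hmem : s(y, p y) ∈ N i := hN i hiM y hadj hne
        have hnS : s(y, p y) ∉ S := Finset.disjoint_left.1 hdis hmem
        have h2 : s(y, p y) ∈ M'.edgeSet := by
          apply h
          refine ⟨(mem_edgeSet_iff hp _).2 ⟨y, rfl⟩, ?_⟩
          rw [Finset.coe_insert]
          rintro (h3 | h3)
          · exact hne h3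
          · exact hnS h3
        rw [SimpleGraph.Subgraph.mem_edgeSet, hp', hyd, partner_invol hp'] at h2
        apply hy
        have := congrArg p h2
        rw [partner_invol hp] at this
        exact this
    intro e he
    by_cases hei : e = i
    · rw [hei]; exact hkey
    · apply h
      refine ⟨he.1, ?_⟩
      rw [Finset.coe_insert]
      rintro (h3 | h3)
      · exact hei h3
      · exact he.2 h3

/-- summing over the vertices counts every edge of the perfect matching twice -/
lemma sum_edges [Fintype V] [DecidableEq V] {M : G.Subgraph} {p : V → V}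
    (hp : ∀ v w, M.Adj v w ↔ w = p v) (f : Sym2 V → ℝ) :
    ∑ v : V, f s(v, p v) = 2 * ∑ e ∈ Finset.univ.image (fun v : V => s(v, p v)), f e := by
  rw [Finset.sum_image' (s := Finset.univ) (g := fun v : V => s(v, p v))
    (f := f) (h := fun v => f s(v, p v) / 2)]
  · rw [Finset.mul_sum]
    exact Finset.sum_congr rfl fun v _ => by ring
  · intro v _
    have hset : (Finset.univ.filter fun j : V => s(j, p j) = s(v, p v)) = {v, p v} := by
      ext j
      rw [Finset.mem_filter, Sym2.eq_iff, Finset.mem_insert, Finset.mem_singleton]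
      constructor
      · rintro ⟨_, h | h⟩
        · exact Or.inl h.1
        · exact Or.inr h.1
      · rintro (h | h)
        · exact ⟨Finset.mem_univ _, Or.inl ⟨h, by rw [h]⟩⟩
        · exact ⟨Finset.mem_univ _, Or.inr ⟨h, by rw [h, partner_invol hp]⟩⟩
    rw [hset, Finset.sum_pair (partner_adj hp v).ne, partner_invol hp, Sym2.eq_swap]
    ring

/-- for every perfect matching `M` there is a small forcing set -/
lemma forcingNumber_bound [Fintype V] {n : ℕ} (hn : 1 ≤ n) (hV : Fintype.card V = 2 * n)
    {M : G.Subgraph} (hM : M.IsPerfectMatching) :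
    (n : ℝ) ^ 2 ≤ (G.edgeSet.ncard : ℝ) * ((n : ℝ) - forcingNumber G M) := by
  classical
  obtain ⟨p, hp⟩ := exists_partner hM
  set q : V → Sym2 V := fun v => s(v, p v) with hq
  set E : Finset (Sym2 V) := Finset.univ.image q with hE
  have hEM : ∀ e, e ∈ E ↔ e ∈ M.edgeSet := by
    intro e
    rw [mem_edgeSet_iff hp, hE, Finset.mem_image]
    exact ⟨fun ⟨v, _, h⟩ => ⟨v, h.symm⟩, fun ⟨v, h⟩ => ⟨v, Finset.mem_univ _, h.symm⟩⟩
  -- the endpoint of smaller degree
  have hwex : ∀ e : Sym2 V, ∃ x ∈ e, ∀ y ∈ e, G.degree x ≤ G.degree y := by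
    intro e
    induction e using Sym2.ind with
    | _ a b =>
      rcases le_total (G.degree a) (G.degree b) with h | h
      · refine ⟨a, Sym2.mem_mk_left a b, ?_⟩
        intro y hy
        rcases Sym2.mem_iff.1 hy with rfl | rfl
        · exact le_rfl
        · exact h
      · refine ⟨b, Sym2.mem_mk_right a b, ?_⟩
        intro y hy
        rcases Sym2.mem_iff.1 hy with rfl | rfl
        · exact h
        · exact le_rfl
  choose w hw hwmin using hwex
  set N : Sym2 V → Finset (Sym2 V) := fun e =>
    ((G.neighborFinset (w e)).image q).erase e with hNdef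
  have hNnot : ∀ e, e ∉ N e := fun e => Finset.notMem_erase _ _
  obtain ⟨S, hSE, hS, hsum⟩ := exists_elim N hNnot E
  -- size of `N e`
  have hNcard : ∀ e ∈ E, (1 : ℝ) + ((N e ∩ E).card : ℝ) ≤ G.degree (w e) := by
    intro e he
    have hwe : q (w e) = e := by
      obtain ⟨a, ha⟩ := (mem_edgeSet_iff hp e).1 ((hEM e).1 he)
      have h1 := hw e
      rw [ha, Sym2.mem_iff] at h1
      rw [← ha] at h1
      rcases h1 with h1 | h1
      · rw [hq]; simp only []; rw [h1]; exact ha.symm
      · rw [hq]; simp only []; rw [h1, partner_invol hp, Sym2.eq_swap]; exact ha.symm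
    have hmem : e ∈ (G.neighborFinset (w e)).image q := by
      refine Finset.mem_image.2 ⟨p (w e), ?_, ?_⟩
      · rw [SimpleGraph.mem_neighborFinset]
        exact partner_adj hp _
      · rw [hq]; simp only []; rw [partner_invol hp, Sym2.eq_swap]; exact hwe
    have h1 : (N e).card + 1 = ((G.neighborFinset (w e)).image q).card :=
      Finset.card_erase_add_one hmem
    have h2 : ((G.neighborFinset (w e)).image q).card ≤ G.degree (w e) := by
      rw [← SimpleGraph.card_neighborFinset_eq_degree]
      exact Finset.card_image_le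
    have h3 : (N e ∩ E).card ≤ (N e).card := Finset.card_le_card Finset.inter_subset_left
    have h4 : 1 + (N e ∩ E).card ≤ G.degree (w e) := by omega
    exact_mod_cast h4
  -- the number of edges of `M`
  have hEcard : (E.card : ℝ) = n := by
    have h1 := sum_edges hp (fun _ => (1 : ℝ))
    simp only [Finset.sum_const, Finset.card_univ, nsmul_eq_mul, mul_one] at h1
    rw [hV] at h1
    push_cast at h1
    have h2 : (E.card : ℝ) = (Finset.univ.image (fun v : V => s(v, p v))).card := rfl
    linarith
  -- the sum of the degrees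
  have hdeg : ∑ e ∈ E, (G.degree (w e) : ℝ) ≤ G.edgeSet.ncard := by
    have h1 := sum_edges hp (fun e => (G.degree (w e) : ℝ))
    have h2 : ∑ v : V, (G.degree (w s(v, p v)) : ℝ) ≤ ∑ v : V, (G.degree v : ℝ) := by
      refine Finset.sum_le_sum fun v _ => ?_
      exact_mod_cast hwmin _ v (Sym2.mem_mk_left _ _)
    have h3 : ∑ v : V, (G.degree v : ℝ) = 2 * G.edgeSet.ncard := by
      have h4 := G.sum_degrees_eq_twice_card_edges
      have h5 : G.edgeFinset.card = G.edgeSet.ncard := by
        rw [← SimpleGraph.coe_edgeFinset, Set.ncard_coe_finset]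
      rw [h5] at h4
      exact_mod_cast h4
    have h6 : ∑ e ∈ E, (G.degree (w e) : ℝ) =
      ∑ e ∈ Finset.univ.image (fun v : V => s(v, p v)), (G.degree (w e) : ℝ) := rfl
    rw [h6]
    linarith
  -- Cauchy-Schwarz
  have hpos : ∀ e ∈ E, (0 : ℝ) < 1 + ((N e ∩ E).card : ℝ) := fun e _ => by positivity
  have hcs := Finset.sq_sum_div_le_sum_sq_div E (fun _ => (1 : ℝ)) hpos
  simp only [Finset.sum_const, nsmul_eq_mul, mul_one, one_pow] at hcs
  rw [hEcard] at hcs
  have htot : ∑ e ∈ E, ((1 : ℝ) + ((N e ∩ E).card : ℝ)) ≤ G.edgeSet.ncard :=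
    (Finset.sum_le_sum hNcard).trans hdeg
  have hn0 : (0 : ℝ) < n := by exact_mod_cast hn
  have htot0 : (0 : ℝ) < ∑ e ∈ E, ((1 : ℝ) + ((N e ∩ E).card : ℝ)) := by
    refine Finset.sum_pos hpos ?_
    rw [← Finset.card_pos]
    have : (0 : ℝ) < E.card := by rw [hEcard]; exact hn0
    exact_mod_cast this
  have hSbig : (n : ℝ) ^ 2 ≤ G.edgeSet.ncard * S.card := by
    have h1 : (n : ℝ) ^ 2 / ∑ e ∈ E, ((1 : ℝ) + ((N e ∩ E).card : ℝ)) ≤ S.card := hcs.trans hsum
    rw [div_le_iff₀ htot0] at h1
    have h2 : (0 : ℝ) ≤ S.card := by positivity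
    nlinarith
  -- the forcing set
  have hforce : IsForcing G M (M.edgeSet \ (S : Set (Sym2 V))) := by
    refine ⟨Set.sdiff_subset, forcing_of_elim hM hp w (fun e _ => hw e) N ?_ S hS
      (fun e he => (hEM e).1 (hSE he))⟩
    intro e _ y hy hne
    refine Finset.mem_erase.2 ⟨hne, Finset.mem_image.2 ⟨y, ?_, rfl⟩⟩
    rw [SimpleGraph.mem_neighborFinset]
    exact hy
  have hcard : (M.edgeSet \ (S : Set (Sym2 V))).ncard + S.card = E.card := by
    have h1 : M.edgeSet = (E : Set (Sym2 V)) := by
      ext e
      rw [← hEM]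
      rfl
    rw [h1, ← Finset.coe_sdiff, Set.ncard_coe_finset]
    exact Finset.card_sdiff_add_card_eq_card hSE
  have hf : forcingNumber G M ≤ (M.edgeSet \ (S : Set (Sym2 V))).ncard :=
    Nat.sInf_le ⟨_, hforce, rfl⟩
  have h1 : (forcingNumber G M : ℝ) + S.card ≤ n := by
    rw [← hEcard]
    have : forcingNumber G M + S.card ≤ E.card := by omega
    exact_mod_cast this
  have h2 : (0 : ℝ) ≤ G.edgeSet.ncard := by positivity
  nlinarith

end graph

/-- Every graph `G` on `2n` vertices, `n ≥ 1`, with a perfect matching satisfies `F(G) < n` and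
`e(G) ≥ n² / (n - F(G))`. -/
theorem result (n : ℕ) (hn : 1 ≤ n) (V : Type) [Fintype V] (hV : Fintype.card V = 2 * n)
    (G : SimpleGraph V) (hG : ∃ M : G.Subgraph, M.IsPerfectMatching) :
    maxForcing G < n ∧ (n : ℝ) ^ 2 / ((n : ℝ) - maxForcing G) ≤ (G.edgeSet.ncard : ℝ) := by
  classical
  have hn0 : (0 : ℝ) < n := by exact_mod_cast hn
  have hne : {k : ℕ | ∃ M : G.Subgraph, M.IsPerfectMatching ∧ forcingNumber G M = k}.Nonempty := by
    obtain ⟨M, hM⟩ := hG
    exact ⟨_, M, hM, rfl⟩
  have hbdd : BddAbove {k : ℕ | ∃ M : G.Subgraph, M.IsPerfectMatching ∧ forcingNumber G M = k} := by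
    refine ⟨n, ?_⟩
    rintro k ⟨M, hM, rfl⟩
    have h1 := forcingNumber_bound hn hV hM
    by_contra hlt
    push Not at hlt
    have h2 : (n : ℝ) < forcingNumber G M := by exact_mod_cast hlt
    have h3 : (0 : ℝ) ≤ G.edgeSet.ncard := by positivity
    nlinarith [pow_pos hn0 2, mul_nonneg h3 (sub_nonneg.2 h2.le)]
  obtain ⟨M, hM, hMF⟩ := Nat.sSup_mem hne hbdd
  have h1 := forcingNumber_bound hn hV hM
  have hF : forcingNumber G M = maxForcing G := hMF
  rw [hF] at h1
  have h3 : (0 : ℝ) ≤ G.edgeSet.ncard := by positivity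
  have h4 : (0 : ℝ) < (n : ℝ) - maxForcing G := by
    by_contra hle
    push Not at hle
    nlinarith [pow_pos hn0 2, mul_nonneg h3 (sub_nonneg.2 hle)]
  refine ⟨?_, ?_⟩
  · have : (maxForcing G : ℝ) < n := by linarith
    exact_mod_cast this
  · rw [div_le_iff₀ h4]
    exact h1

end Pool.Agent.Results.MP_f5b231_co.EdgeBound
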